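import Pool.Agent.H87.VA.TO

set_option autoImplicit false

namespace Pool.Agent.H87.VA

open _root_.Pool.Agent.H16.VA

lemma exists_char (m : MaximalSpectrum R2) : ∃ χ : R2 →ₐ[ℂ] ℂ, ptOf χ = m := by
  have hm := m.isMaximal
  let _ := Ideal.Quotient.field m.asIdeal
  have h0 : Algebra.FiniteType ℂ R2 := t_to.2.2
  have h1 : Algebra.FiniteType ℂ (R2 ⧸ m.asIdeal) :=
    h0.of_surjective (Ideal.Quotient.mkₐ ℂ m.asIdeal) (Ideal.Quotient.mkₐ_surjective _ _)
  have h2 : Module.Finite ℂ (R2 ⧸ m.asIdeal) := finite_of_finite_type_of_isJacobsonRing _ _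
  have h3 : Function.Bijective (algebraMap ℂ (R2 ⧸ m.asIdeal)) :=
    IsAlgClosed.algebraMap_bijective_of_isIntegral
  let e : ℂ ≃ₐ[ℂ] (R2 ⧸ m.asIdeal) :=
    AlgEquiv.ofBijective (Algebra.ofId ℂ (R2 ⧸ m.asIdeal)) h3
  refine ⟨(e.symm : (R2 ⧸ m.asIdeal) →ₐ[ℂ] ℂ).comp (Ideal.Quotient.mkₐ ℂ m.asIdeal), ?_⟩
  have h4 : (ptOf ((e.symm : (R2 ⧸ m.asIdeal) →ₐ[ℂ] ℂ).comp
      (Ideal.Quotient.mkₐ ℂ m.asIdeal))).asIdeal = m.asIdeal := by
    ext g
    rw [mem_ptOf]
    simp only [AlgHom.comp_apply, AlgEquiv.coe_toAlgHom, EmbeddingLike.map_eq_zero_iff]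
    exact Ideal.Quotient.eq_zero_iff_mem
  exact MaximalSpectrum.ext h4

lemma char_eq (χ : R2 →ₐ[ℂ] ℂ) : ∃ i a b, χ = chi i a b := by
  have he : χ ee * χ ee = χ ee := by rw [← map_mul, ee_mul]
  let ψ : Polynomial ℂ →ₐ[ℂ] ℂ := (χ.comp Polynomial.CAlgHom).comp
    ((AlgHom.id ℂ (Polynomial ℂ)).prod (AlgHom.id ℂ (Polynomial ℂ)))
  have hψ : ∀ p : Polynomial ℂ, ψ p = χ (Polynomial.C ((p, p) : Polynomial ℂ × Polynomial ℂ)) :=
    fun p => rfl
  have hψ2 : ∀ p : Polynomial ℂ, ψ p = Polynomial.aeval (ψ Polynomial.X) p := by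
    intro p
    rw [Polynomial.aeval_algHom_apply, Polynomial.aeval_X_left_apply]
  have hcase : χ ee = 1 ∨ χ ee = 0 := by
    have : χ ee * (χ ee - 1) = 0 := by rw [mul_sub, he, mul_one, sub_self]
    rcases mul_eq_zero.1 this with h | h
    · exact Or.inr h
    · exact Or.inl (sub_eq_zero.1 h)
  rcases hcase with h | h
  · refine ⟨true, ψ Polynomial.X, χ Polynomial.X, ?_⟩
    apply Polynomial.algHom_ext'
    · ext1 r
      show χ (Polynomial.C r) = chi true _ _ (Polynomial.C r)
      rw [chi_C, cc_true, ← hψ2, hψ]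
      have h1 : χ (ee * Polynomial.C r) =
          χ (ee * Polynomial.C ((r.1, r.1) : Polynomial ℂ × Polynomial ℂ)) := by
        congr 1
        unfold ee
        rw [← Polynomial.C_mul, ← Polynomial.C_mul]
        exact congrArg Polynomial.C (Prod.ext (by simp) (by simp))
      rwa [map_mul, map_mul, h, one_mul, one_mul] at h1
    · rw [chi_X]
  · refine ⟨false, ψ Polynomial.X, χ Polynomial.X, ?_⟩
    apply Polynomial.algHom_ext'
    · ext1 r
      show χ (Polynomial.C r) = chi false _ _ (Polynomial.C r)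
      rw [chi_C, cc_false, ← hψ2, hψ]
      have h1 : χ ((1 - ee) * Polynomial.C r) =
          χ ((1 - ee) * Polynomial.C ((r.2, r.2) : Polynomial ℂ × Polynomial ℂ)) := by
        congr 1
        unfold ee
        rw [← Polynomial.C_1, ← Polynomial.C_sub, ← Polynomial.C_mul, ← Polynomial.C_mul]
        congr 1
        ext <;> simp
      rwa [map_mul, map_mul, map_sub, h, map_one, sub_zero, one_mul, one_mul] at h1
    · rw [chi_X]

section

variable (P : PoissonStr R2)

lemma br_swap (a b : R2) : P.br a b = - P.br b a := by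
  have h := P.alt (a + b)
  simp only [map_add, LinearMap.add_apply, P.alt, zero_add, add_zero] at h
  first | exact eq_neg_of_add_eq_zero_left h | exact eq_neg_of_add_eq_zero_right h

lemma br_ee (f : R2) : P.br f ee = 0 := by
  have h1 : P.br f (ee * ee) = P.br f ee * ee + ee * P.br f ee := P.leib _ _ _
  rw [ee_mul] at h1
  have h2 : (1 - 2 * ee) * P.br f ee = 0 := by
    linear_combination h1
  have h3 : (1 - 2 * ee) * (1 - 2 * ee) = 1 := by
    linear_combination 4 * ee_mul
  calc P.br f ee = ((1 - 2 * ee) * (1 - 2 * ee)) * P.br f ee := by rw [h3, one_mul]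
    _ = (1 - 2 * ee) * ((1 - 2 * ee) * P.br f ee) := by rw [mul_assoc]
    _ = 0 := by rw [h2, mul_zero]

/-- the component of a closed point -/
def comp (m : MaximalSpectrum R2) : Prop := ee ∈ m.asIdeal

lemma comp_const {f : R2} {γ : ℝ → (R2 →ₐ[ℂ] ℂ)} (h : P.IsHamCurve f γ) :
    γ 0 ee = γ 1 ee := by
  have h1 : ∀ t ∈ Set.Icc (0 : ℝ) 1,
      HasDerivWithinAt (fun t => γ t ee) 0 (Set.Icc (0 : ℝ) 1) t := by
    intro t ht
    have := h ee t ht
    rwa [br_ee, map_zero] at this
  have h2 := (convex_Icc (0 : ℝ) 1).norm_image_sub_le_of_norm_hasDerivWithin_le (C := 0) h1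
    (fun x _ => by simp) (Set.left_mem_Icc.2 zero_le_one) (Set.right_mem_Icc.2 zero_le_one)
  rw [zero_mul] at h2
  have h3 := norm_le_zero_iff.1 h2
  exact (sub_eq_zero.1 h3).symm

lemma leaf_comp {x y : MaximalSpectrum R2} (h : P.leafSetoid x y) : comp x ↔ comp y := by
  induction h with
  | rel x y h =>
    obtain ⟨f, γ, hγ, rfl, rfl⟩ := h
    unfold comp
    rw [mem_ptOf, mem_ptOf, comp_const P hγ]
  | refl x => exact Iff.rfl
  | symm x y _ ih => exact ih.symm
  | trans x y z _ _ ih1 ih2 => exact ih1.trans ih2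

/-- the coordinate `x` -/
noncomputable def xx : Polynomial ℂ × Polynomial ℂ := (Polynomial.X, Polynomial.X)

lemma cc_xx (i : Bool) (a : ℂ) : cc i a xx = a := by
  cases i
  · rw [cc_false]; simp [xx]
  · rw [cc_true]; simp [xx]

lemma hasDeriv_cc (i : Bool) (a c : ℂ) (r : Polynomial ℂ × Polynomial ℂ) (t : ℝ) :
    HasDerivAt (fun t : ℝ => cc i (a + t * c) r) (c * cc i (a + t * c) (dd r)) t := by
  have key : ∀ p : Polynomial ℂ, HasDerivAt (fun t : ℝ => Polynomial.aeval (a + t * c : ℂ) p)
      (c * Polynomial.aeval (a + t * c : ℂ) (Polynomial.derivative p)) t := by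
    intro p
    have h1 : HasDerivAt (fun t : ℝ => (a + t * c : ℂ)) c t := by
      have h2 : HasDerivAt (fun t : ℝ => ((t : ℝ) : ℂ)) 1 t := Complex.ofRealCLM.hasDerivAt
      have h3 := (h2.mul_const c).const_add a
      rwa [one_mul] at h3
    have h4 : HasDerivAt (fun z : ℂ => Polynomial.aeval z p)
        (Polynomial.aeval (a + t * c : ℂ) (Polynomial.derivative p)) (a + t * c : ℂ) :=
      p.hasDerivAt_aeval _
    have h5 := h4.comp_of_eq t h1 rfl
    rw [mul_comm] at h5
    exact h5
  cases i
  · exact key r.2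
  · exact key r.1

lemma ham_curve (hX : ∀ r, P.br Polynomial.X (Polynomial.C r) = Polynomial.C (dd r))
    (hC : ∀ r s, P.br (Polynomial.C r) (Polynomial.C s) = 0) (i : Bool) (a b c1 c2 : ℂ) (g : R2)
    (t : ℝ) : HasDerivAt (fun t : ℝ => chi i (a + t * c1) (b + t * c2) g)
      (chi i (a + t * c1) (b + t * c2)
        (P.br (c1 • Polynomial.X - c2 • Polynomial.C xx) g)) t := by
  have hCC : ∀ r, HasDerivAt (fun t : ℝ => chi i (a + t * c1) (b + t * c2) (Polynomial.C r))
      (chi i (a + t * c1) (b + t * c2)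
        (P.br (c1 • Polynomial.X - c2 • Polynomial.C xx) (Polynomial.C r))) t := by
    intro r
    have h1 := hasDeriv_cc i a c1 r t
    have h2 : chi i (a + t * c1) (b + t * c2)
        (P.br (c1 • Polynomial.X - c2 • Polynomial.C xx) (Polynomial.C r)) =
        c1 * cc i (a + t * c1) (dd r) := by
      rw [map_sub, map_smul, map_smul, LinearMap.sub_apply, LinearMap.smul_apply,
        LinearMap.smul_apply, hX, hC, smul_zero, sub_zero, map_smul, chi_C, smul_eq_mul]
    rw [h2]
    simpa only [chi_C] using h1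
  have hXX : HasDerivAt (fun t : ℝ => chi i (a + t * c1) (b + t * c2) Polynomial.X)
      (chi i (a + t * c1) (b + t * c2)
        (P.br (c1 • Polynomial.X - c2 • Polynomial.C xx) Polynomial.X)) t := by
    have h2 : chi i (a + t * c1) (b + t * c2)
        (P.br (c1 • Polynomial.X - c2 • Polynomial.C xx) Polynomial.X) = c2 := by
      rw [map_sub, map_smul, map_smul, LinearMap.sub_apply, LinearMap.smul_apply,
        LinearMap.smul_apply, P.alt, smul_zero, zero_sub, br_swap, hX, smul_neg, neg_neg,
        map_smul, chi_C]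
      have h3 : dd xx = 1 := by
        unfold dd xx
        ext <;> simp
      rw [h3, map_one, smul_eq_mul, mul_one]
    rw [h2]
    have h3 : HasDerivAt (fun t : ℝ => ((t : ℝ) : ℂ)) 1 t := Complex.ofRealCLM.hasDerivAt
    have h4 := (h3.mul_const c2).const_add b
    rw [one_mul] at h4
    simpa only [chi_X] using h4
  have hmul : ∀ p q : R2, HasDerivAt (fun t : ℝ => chi i (a + t * c1) (b + t * c2) p)
      (chi i (a + t * c1) (b + t * c2)
        (P.br (c1 • Polynomial.X - c2 • Polynomial.C xx) p)) t →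
      HasDerivAt (fun t : ℝ => chi i (a + t * c1) (b + t * c2) q)
      (chi i (a + t * c1) (b + t * c2)
        (P.br (c1 • Polynomial.X - c2 • Polynomial.C xx) q)) t →
      HasDerivAt (fun t : ℝ => chi i (a + t * c1) (b + t * c2) (p * q))
      (chi i (a + t * c1) (b + t * c2)
        (P.br (c1 • Polynomial.X - c2 • Polynomial.C xx) (p * q))) t := by
    intro p q hp hq
    have h := hp.mul hq
    rw [P.leib, map_add, map_mul, map_mul]
    simp only [map_mul]
    exact h
  induction g using Polynomial.induction_on with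
  | C r => exact hCC r
  | add p q hp hq =>
    simp only [map_add]
    exact hp.add hq
  | monomial n r ih =>
    rw [pow_succ, ← mul_assoc]
    exact hmul _ _ ih hXX

lemma leaf_chi (hX : ∀ r, P.br Polynomial.X (Polynomial.C r) = Polynomial.C (dd r))
    (hC : ∀ r s, P.br (Polynomial.C r) (Polynomial.C s) = 0) (i : Bool) (a b a' b' : ℂ) :
    P.leafSetoid (ptOf (chi i a b)) (ptOf (chi i a' b')) := by
  apply Relation.EqvGen.rel
  refine ⟨(a' - a) • Polynomial.X - (b' - b) • Polynomial.C xx,
    fun t => chi i (a + t * (a' - a)) (b + t * (b' - b)), ?_, ?_, ?_⟩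
  · intro g t _
    exact (ham_curve P hX hC i a b (a' - a) (b' - b) g t).hasDerivWithinAt
  · simp
  · simp

end

theorem t_le : LeafStmt := by
  intro P hX hC
  classical
  have hbij : Function.Bijective (Quotient.lift (s := P.leafSetoid) (fun m => decide (comp m))
      (fun x y h => by
        have := leaf_comp P h
        exact decide_eq_decide.2 this) : P.Leaves → Bool) := by
    constructor
    · intro x y
      induction x using Quotient.inductionOn with
      | h x =>
      induction y using Quotient.inductionOn with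
      | h y =>
      intro h
      have h1 : comp x ↔ comp y := decide_eq_decide.1 h
      obtain ⟨χ, rfl⟩ := exists_char x
      obtain ⟨χ', rfl⟩ := exists_char y
      obtain ⟨i, a, b, rfl⟩ := char_eq χ
      obtain ⟨i', a', b', rfl⟩ := char_eq χ'
      have hii : i = i' := by
        unfold comp at h1
        rw [mem_ptOf, mem_ptOf] at h1
        cases i <;> cases i'
        · rfl
        · rw [chi_ee_false, chi_ee_true] at h1
          exact absurd (h1.1 rfl) one_ne_zero
        · rw [chi_ee_false, chi_ee_true] at h1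
          exact absurd (h1.2 rfl) one_ne_zero
        · rfl
      subst hii
      exact Quotient.sound (leaf_chi P hX hC i a b a' b')
    · intro c
      cases c
      · refine ⟨Quotient.mk _ (ptOf (chi true 0 0)), ?_⟩
        show decide (comp (ptOf (chi true 0 0))) = false
        rw [decide_eq_false_iff_not]
        unfold comp
        rw [mem_ptOf, chi_ee_true]
        exact one_ne_zero
      · refine ⟨Quotient.mk _ (ptOf (chi false 0 0)), ?_⟩
        show decide (comp (ptOf (chi false 0 0))) = true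
        rw [decide_eq_true_iff]
        unfold comp
        rw [mem_ptOf, chi_ee_false]
  exact (Nat.card_eq_of_bijective _ hbij).trans (by rw [Nat.card_eq_fintype_card, Fintype.card_bool])

end Pool.Agent.H87.VA
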