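import Pool.Agent.H16.VA.Targets

set_option autoImplicit false

namespace Pool.Agent.H87.VA

open _root_.Pool.Agent.H16.VA

/-- projection to the component `i` followed by evaluation at `a` -/
noncomputable def cc (i : Bool) (a : ℂ) : (Polynomial ℂ × Polynomial ℂ) →ₐ[ℂ] ℂ :=
  (Polynomial.aeval a).comp (cond i (AlgHom.fst ℂ (Polynomial ℂ) (Polynomial ℂ))
    (AlgHom.snd ℂ (Polynomial ℂ) (Polynomial ℂ)))

/-- the character of the point `(a, b)` of the component `i` -/
noncomputable def chi (i : Bool) (a b : ℂ) : R2 →ₐ[ℂ] ℂ :=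
  Polynomial.eval₂AlgHom (cc i a) b (fun _ => Commute.all _ _)

lemma chi_C (i : Bool) (a b : ℂ) (r : Polynomial ℂ × Polynomial ℂ) :
    chi i a b (Polynomial.C r) = cc i a r := by
  unfold chi
  rw [Polynomial.eval₂AlgHom_apply, Polynomial.eval₂_C]
  rfl

lemma chi_X (i : Bool) (a b : ℂ) : chi i a b Polynomial.X = b := by
  unfold chi
  rw [Polynomial.eval₂AlgHom_apply, Polynomial.eval₂_X]

lemma cc_true (a : ℂ) (r : Polynomial ℂ × Polynomial ℂ) : cc true a r = Polynomial.aeval a r.1 := rfl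

lemma cc_false (a : ℂ) (r : Polynomial ℂ × Polynomial ℂ) :
    cc false a r = Polynomial.aeval a r.2 := rfl

/-- the idempotent -/
noncomputable def ee : R2 := Polynomial.C ((1, 0) : Polynomial ℂ × Polynomial ℂ)

lemma ee_mul : ee * ee = ee := by
  unfold ee
  rw [← Polynomial.C_mul]
  congr 1
  ext <;> simp

lemma chi_ee_true (a b : ℂ) : chi true a b ee = 1 := by
  unfold ee
  rw [chi_C, cc_true]
  simp

lemma chi_ee_false (a b : ℂ) : chi false a b ee = 0 := by
  unfold ee
  rw [chi_C, cc_false]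
  simp

lemma mem_ptOf (χ : R2 →ₐ[ℂ] ℂ) (g : R2) : g ∈ (ptOf χ).asIdeal ↔ χ g = 0 := Iff.rfl

lemma isOpen_basic (g : R2) : IsOpen {m : MaximalSpectrum R2 | g ∉ m.asIdeal} := by
  have h := (PrimeSpectrum.isOpen_basicOpen (a := g))
  have h2 : Continuous (MaximalSpectrum.toPrimeSpectrum : MaximalSpectrum R2 → PrimeSpectrum R2) :=
    MaximalSpectrum.toPrimeSpectrum_continuous
  have h3 := h.preimage h2
  exact h3

theorem t_to : TopStmt := by
  refine ⟨?_, ⟨fun p hp => ?_⟩, ?_⟩
  · intro h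
    have h1 := nonempty_preirreducible_inter (isOpen_basic ee) (isOpen_basic (1 - ee))
      ⟨ptOf (chi true 0 0), by
        rw [Set.mem_ofPred_eq, mem_ptOf, chi_ee_true]; exact one_ne_zero⟩
      ⟨ptOf (chi false 0 0), by
        rw [Set.mem_ofPred_eq, mem_ptOf, map_sub, chi_ee_false, map_one, sub_zero]
        exact one_ne_zero⟩
    obtain ⟨m, hm1, hm2⟩ := h1
    have h2 : ee * (1 - ee) ∈ m.asIdeal := by
      rw [mul_sub, mul_one, ee_mul, sub_self]
      exact Ideal.zero_mem _
    rcases m.isMaximal.isPrime.mem_or_mem h2 with h | h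
    · exact hm1 h
    · exact hm2 h
  · rw [Polynomial.isNilpotent_iff] at hp
    ext1 n
    rw [Polynomial.coeff_zero]
    exact (hp n).eq_zero
  · have h1 : Algebra.FiniteType ℂ (Polynomial ℂ × Polynomial ℂ) := inferInstance
    exact Algebra.FiniteType.trans h1 inferInstance

end Pool.Agent.H87.VA
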